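import Mathlib

/-!
# Sets with a monotone cofinal family of compact subsets are `G_δ`

A version of a theorem of Christensen for subsets of the Cantor space `S → Bool`.
-/

open Set Filter Topology

namespace Q214.OC

variable {S : Type} [Encodable S]

/-- Cylinders. -/
def cyl (x : S → Bool) (n : ℕ) : Set (S → Bool) := {y | ∀ s, Encodable.encode s < n → y s = x s}

lemma self_mem_cyl (x : S → Bool) (n : ℕ) : x ∈ cyl x n := fun _ _ => rfl

lemma cyl_anti (x : S → Bool) {m n : ℕ} (h : m ≤ n) : cyl x n ⊆ cyl x m :=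
  fun _ hy s hs => hy s (lt_of_lt_of_le hs h)

lemma cyl_eq {x y : S → Bool} {n : ℕ} (h : y ∈ cyl x n) : cyl y n = cyl x n := by
  ext z
  constructor
  · intro hz s hs
    rw [hz s hs, h s hs]
  · intro hz s hs
    rw [hz s hs, h s hs]

lemma cyl_eq' {x y : S → Bool} {m n : ℕ} (h : y ∈ cyl x n) (hmn : m ≤ n) : cyl y m = cyl x m :=
  cyl_eq (cyl_anti x hmn h)

lemma isOpen_cyl (x : S → Bool) (n : ℕ) : IsOpen (cyl x n) := by
  have hfin : {s : S | Encodable.encode s < n}.Finite := by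
    have : {s : S | Encodable.encode s < n} = Encodable.encode ⁻¹' (Iio n) := rfl
    rw [this]
    exact (finite_Iio n).preimage (Encodable.encode_injective.injOn)
  have : cyl x n = ⋂ s ∈ {s : S | Encodable.encode s < n}, {y : S → Bool | y s = x s} := by
    ext y
    simp [cyl]
  rw [this]
  refine hfin.isOpen_biInter fun s _ => ?_
  exact (isOpen_discrete {b | b = x s}).preimage (continuous_apply (A := fun _ : S => Bool) s)

lemma exists_cyl {U : Set (S → Bool)} (hU : IsOpen U) {x : S → Bool} (hx : x ∈ U) :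
    ∃ n, cyl x n ⊆ U := by
  rw [isOpen_pi_iff] at hU
  obtain ⟨I, u, hu, hsub⟩ := hU x hx
  obtain ⟨m, hm⟩ := (I.image Encodable.encode).bddAbove
  refine ⟨m + 1, fun y hy => hsub ?_⟩
  intro s hs
  have h1 : Encodable.encode s ≤ m := hm (Finset.mem_coe.2 (Finset.mem_image_of_mem _ hs))
  rw [hy s (by omega)]
  exact (hu s hs).2

lemma tendsto_of_cyl {x : S → Bool} {a : ℕ → (S → Bool)} {l : ℕ → ℕ} (hl : ∀ n, n ≤ l n)
    (ha : ∀ n, a n ∈ cyl x (l n)) : Tendsto a atTop (𝓝 x) := by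
  rw [tendsto_nhds]
  intro U hU hx
  obtain ⟨n, hn⟩ := exists_cyl hU hx
  filter_upwards [eventually_ge_atTop n] with m hm
  exact hn (cyl_anti x (hm.trans (hl m)) (ha m))

/-- The union of a point and of compact sets converging to it is compact. -/
lemma compact_union {x : S → Bool} {l : ℕ} {K : ℕ → Set (S → Bool)} (hK : ∀ k, IsCompact (K k))
    (hKx : ∀ k, K k ⊆ cyl x (l + k + 1)) : IsCompact ({x} ∪ ⋃ k, K k) := by
  classical
  apply isCompact_of_finite_subcover
  intro ι U hU hcov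
  obtain ⟨i₀, hi₀⟩ := mem_iUnion.1 (hcov (Or.inl rfl))
  obtain ⟨m, hm⟩ := exists_cyl (hU i₀) hi₀
  have hfin : IsCompact (⋃ k ∈ Iio m, K k) := (finite_Iio m).isCompact_biUnion fun k _ => hK k
  obtain ⟨t, ht⟩ := hfin.elim_finite_subcover U hU (by
    intro y hy
    obtain ⟨k, hk, hy⟩ := mem_iUnion₂.1 hy
    exact hcov (Or.inr (mem_iUnion.2 ⟨k, hy⟩)))
  refine ⟨insert i₀ t, ?_⟩
  rintro y (hy | hy)
  · rw [mem_singleton_iff] at hy
    subst hy
    exact mem_iUnion₂.2 ⟨i₀, Finset.mem_insert_self _ _, hi₀⟩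
  · obtain ⟨k, hk⟩ := mem_iUnion.1 hy
    by_cases hkm : k < m
    · obtain ⟨i, hi, hyi⟩ := mem_iUnion₂.1 (ht (mem_iUnion₂.2 ⟨k, hkm, hk⟩))
      exact mem_iUnion₂.2 ⟨i, Finset.mem_insert_of_mem hi, hyi⟩
    · refine mem_iUnion₂.2 ⟨i₀, Finset.mem_insert_self _ _, hm ?_⟩
      exact cyl_anti x (by omega) (hKx k hk)

/-- The property of the pairs consisting of a finite sequence and an open set. -/
def P (A : Set (S → Bool)) (Φ : (ℕ → ℕ) → Set (S → Bool)) (n : ℕ) (s : ℕ → ℕ)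
    (V : Set (S → Bool)) : Prop :=
  ∀ K : Set (S → Bool), IsCompact K → K ⊆ A ∩ V → ∃ σ : ℕ → ℕ, (∀ i < n, σ i = s i) ∧ K ⊆ Φ σ

/-- Admissible continuation. -/
def C (A : Set (S → Bool)) (Φ : (ℕ → ℕ) → Set (S → Bool)) (n l : ℕ) (s : ℕ → ℕ)
    (x : S → Bool) : Prop :=
  (∃ a ∈ A, a ∈ cyl x l) ∧ P A Φ n s (cyl x l)

lemma C_congr {A : Set (S → Bool)} {Φ : (ℕ → ℕ) → Set (S → Bool)} {n l m : ℕ} {s : ℕ → ℕ}
    {x y : S → Bool} (h : y ∈ cyl x m) (hl : l ≤ m) : C A Φ n l s y ↔ C A Φ n l s x := by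
  unfold C
  rw [cyl_eq' h hl]

lemma exists_next {A : Set (S → Bool)} {Φ : (ℕ → ℕ) → Set (S → Bool)} {n l : ℕ} {s : ℕ → ℕ}
    {x : S → Bool} (hx : x ∈ A) (hP : P A Φ n s (cyl x l)) :
    ∃ l', l < l' ∧ ∃ k, C A Φ (n + 1) l' (Function.update s n k) x := by
  by_contra hcon
  push Not at hcon
  have h1 : ∀ k, ∃ K : Set (S → Bool), IsCompact K ∧ K ⊆ A ∩ cyl x (l + k + 1) ∧
      ∀ σ : ℕ → ℕ, (∀ i < n + 1, σ i = Function.update s n k i) → ¬ K ⊆ Φ σ := by
    intro k
    have h2 := hcon (l + k + 1) (by omega) k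
    unfold C at h2
    rw [not_and] at h2
    have h3 := h2 ⟨x, hx, self_mem_cyl x _⟩
    unfold P at h3
    push Not at h3
    exact h3
  choose K hK1 hK2 hK3 using h1
  have hcomp : IsCompact ({x} ∪ ⋃ k, K k) :=
    compact_union hK1 (fun k => (hK2 k).trans inter_subset_right)
  obtain ⟨σ, hσ1, hσ2⟩ := hP _ hcomp (by
    rintro y (hy | hy)
    · rw [mem_singleton_iff] at hy
      subst hy
      exact ⟨hx, self_mem_cyl _ _⟩
    · obtain ⟨k, hk⟩ := mem_iUnion.1 hy
      exact ⟨(hK2 k hk).1, cyl_anti x (by omega) (hK2 k hk).2⟩)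
  apply hK3 (σ n) σ
  · intro i hi
    rcases Nat.lt_succ_iff_lt_or_eq.1 hi with h | h
    · rw [Function.update_of_ne (by omega), hσ1 i h]
    · subst h
      simp
  · exact (subset_iUnion K (σ n)).trans (subset_union_right.trans hσ2)

/-- The construction of a branch for the point `x`. -/
def Run (A : Set (S → Bool)) (Φ : (ℕ → ℕ) → Set (S → Bool)) :
    ℕ → (S → Bool) → ℕ → (ℕ → ℕ) → Prop
  | 0, _, l, s => l = 0 ∧ s = fun _ => 0
  | n + 1, x, l', s' => ∃ l s, Run A Φ n x l s ∧ l < l' ∧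
      (∃ k, s' = Function.update s n k ∧ C A Φ (n + 1) l' s' x ∧
        ∀ j < k, ¬ C A Φ (n + 1) l' (Function.update s n j) x) ∧
      ∀ l'', l < l'' → l'' < l' → ∀ k, ¬ C A Φ (n + 1) l'' (Function.update s n k) x

variable {A : Set (S → Bool)} {Φ : (ℕ → ℕ) → Set (S → Bool)}

lemma run_det : ∀ (n : ℕ) (x : S → Bool) (l m : ℕ) (s t : ℕ → ℕ), Run A Φ n x l s →
    Run A Φ n x m t → l = m ∧ s = t := by
  intro n
  induction n with
  | zero =>
    rintro x l m s t ⟨h1, h2⟩ ⟨h3, h4⟩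
    exact ⟨h1.trans h3.symm, h2.trans h4.symm⟩
  | succ n ih =>
    rintro x l' m' s' t' ⟨l, s, h1, h2, ⟨k, h3, h4, h5⟩, h6⟩ ⟨m, t, g1, g2, ⟨j, g3, g4, g5⟩, g6⟩
    obtain ⟨rfl, rfl⟩ := ih x l m s t h1 g1
    have hlm : l' = m' := by
      rcases lt_trichotomy l' m' with h | h | h
      · exact absurd (h3 ▸ h4) (g6 l' h2 h k)
      · exact h
      · exact absurd (g3 ▸ g4) (h6 m' g2 h j)
    subst hlm
    refine ⟨rfl, ?_⟩
    have hkj : k = j := by
      rcases lt_trichotomy k j with h | h | h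
      · exact absurd (h3 ▸ h4) (g5 k h)
      · exact h
      · exact absurd (g3 ▸ g4) (h5 j h)
    rw [h3, g3, hkj]

lemma run_local : ∀ (n : ℕ) (x y : S → Bool) (l : ℕ) (s : ℕ → ℕ), Run A Φ n x l s →
    y ∈ cyl x l → Run A Φ n y l s := by
  intro n
  induction n with
  | zero =>
    rintro x y l s h _
    exact h
  | succ n ih =>
    rintro x y l' s' ⟨l, s, h1, h2, ⟨k, h3, h4, h5⟩, h6⟩ hy
    refine ⟨l, s, ih x y l s h1 (cyl_anti x h2.le hy), h2, ⟨k, h3, (C_congr hy le_rfl).2 h4, ?_⟩, ?_⟩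
    · intro j hj
      rw [C_congr hy le_rfl]
      exact h5 j hj
    · intro l'' hl1 hl2 k'
      rw [C_congr hy hl2.le]
      exact h6 l'' hl1 hl2 k'

lemma run_P (hcof : ∀ K, IsCompact K → K ⊆ A → ∃ σ, K ⊆ Φ σ) (n : ℕ) (x : S → Bool) (l : ℕ)
    (s : ℕ → ℕ) (h : Run A Φ n x l s) : P A Φ n s (cyl x l) := by
  cases n with
  | zero =>
    intro K hK hsub
    obtain ⟨σ, hσ⟩ := hcof K hK (hsub.trans inter_subset_left)
    exact ⟨σ, fun i hi => absurd hi (Nat.not_lt_zero i), hσ⟩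
  | succ n =>
    obtain ⟨_, _, _, _, ⟨k, _, h4, _⟩, _⟩ := h
    exact h4.2

lemma run_exists (hcof : ∀ K, IsCompact K → K ⊆ A → ∃ σ, K ⊆ Φ σ) {x : S → Bool} (hx : x ∈ A) :
    ∀ n, ∃ l s, Run A Φ n x l s := by
  classical
  intro n
  induction n with
  | zero => exact ⟨0, _, rfl, rfl⟩
  | succ n ih =>
    obtain ⟨l, s, h⟩ := ih
    have h1 := exists_next hx (run_P hcof n x l s h)
    have h2 := Nat.find_spec h1
    refine ⟨Nat.find h1, Function.update s n (Nat.find h2.2), l, s, h, h2.1,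
      ⟨Nat.find h2.2, rfl, Nat.find_spec h2.2, fun j hj => Nat.find_min h2.2 hj⟩, ?_⟩
    intro l'' hl1 hl2 k hC
    exact Nat.find_min h1 hl2 ⟨hl1, k, hC⟩

/-- If `A` has a monotone cofinal family of closed (compact) subsets indexed by the Baire space,
then `A` is a `G_δ` set. -/
theorem isGδ_of_cofinal (hmono : ∀ σ τ : ℕ → ℕ, σ ≤ τ → Φ σ ⊆ Φ τ)
    (hclosed : ∀ σ, IsClosed (Φ σ)) (hsub : ∀ σ, Φ σ ⊆ A)
    (hcof : ∀ K, IsCompact K → K ⊆ A → ∃ σ, K ⊆ Φ σ) : IsGδ A := by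
  classical
  have hG : A = ⋂ n, {x | ∃ l s, Run A Φ n x l s} := by
    apply Subset.antisymm
    · intro x hx
      exact mem_iInter.2 fun n => run_exists hcof hx n
    · intro x hx
      rw [mem_iInter] at hx
      choose l s hrun using hx
      have hstep : ∀ n, l n < l (n + 1) ∧ (∃ k, s (n + 1) = Function.update (s n) n k) ∧
          C A Φ (n + 1) (l (n + 1)) (s (n + 1)) x := by
        intro n
        obtain ⟨l', s', h1, h2, ⟨k, h3, h4, _⟩, _⟩ := hrun (n + 1)
        obtain ⟨h5, h6⟩ := run_det n x _ _ _ _ h1 (hrun n)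
        subst h5
        subst h6
        exact ⟨h2, ⟨k, h3⟩, h4⟩
      have hl : ∀ n, n ≤ l n := by
        intro n
        induction n with
        | zero => omega
        | succ n ih =>
          have := (hstep n).1
          omega
      have hstable : ∀ n i, i < n → s n i = s (i + 1) i := by
        intro n
        induction n with
        | zero => intro i hi; omega
        | succ n ih =>
          intro i hi
          rcases Nat.lt_succ_iff_lt_or_eq.1 hi with h | h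
          · obtain ⟨k, hk⟩ := (hstep n).2.1
            rw [hk, Function.update_of_ne (by omega)]
            exact ih i h
          · subst h
            rfl
      have hpt : ∀ n, ∃ a ∈ A, a ∈ cyl x (l (n + 1)) := fun n => (hstep n).2.2.1
      choose a haA hacyl using hpt
      have hσ : ∀ n, ∃ σ : ℕ → ℕ, (∀ i < n + 1, σ i = s (n + 1) i) ∧ a n ∈ Φ σ := by
        intro n
        obtain ⟨σ, h1, h2⟩ := (hstep n).2.2.2 {a n} isCompact_singleton
          (singleton_subset_iff.2 ⟨haA n, hacyl n⟩)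
        exact ⟨σ, h1, h2 rfl⟩
      choose σ hσ1 hσ2 using hσ
      let τ : ℕ → ℕ := fun i => s (i + 1) i + ∑ n ∈ Finset.range (i + 1), σ n i
      have hle : ∀ n, σ n ≤ τ := by
        intro n i
        show σ n i ≤ s (i + 1) i + ∑ n ∈ Finset.range (i + 1), σ n i
        by_cases hi : i < n + 1
        · rw [hσ1 n i hi, hstable (n + 1) i hi]
          exact Nat.le_add_right _ _
        · have h1 : σ n i ≤ ∑ n ∈ Finset.range (i + 1), σ n i :=
            Finset.single_le_sum (f := fun n => σ n i) (fun _ _ => Nat.zero_le _)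
              (Finset.mem_range.2 (by omega))
          omega
      have h1 : ∀ n, a n ∈ Φ τ := fun n => hmono _ _ (hle n) (hσ2 n)
      have h2 : Tendsto a atTop (𝓝 x) :=
        tendsto_of_cyl (l := fun n => l (n + 1)) (fun n => by have := hl (n + 1); omega) hacyl
      exact hsub τ ((hclosed τ).mem_of_tendsto h2 (Eventually.of_forall h1))
  rw [hG]
  refine IsGδ.iInter_of_isOpen fun n => ?_
  rw [isOpen_iff_mem_nhds]
  rintro x ⟨l, s, h⟩
  exact mem_of_superset ((isOpen_cyl x l).mem_nhds (self_mem_cyl x l))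
    (fun y hy => ⟨l, s, run_local n x y l s h hy⟩)

end Q214.OC
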