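import Pool.Agent.Q214.OC.Chr

/-!
# Complexes coding closed sets of a second countable space
-/

open Set Filter Topology MeasureTheory TopologicalSpace

namespace Q214.OC

theorem polish_cantor (S : Type) [Countable S] : PolishSpace (S → Bool) := {}

/-- Indices: pairs of a finite set of natural numbers and a natural number. -/
abbrev S : Type := Finset ℕ × ℕ

/-- Complexes. -/
def IsCpx (c : S → Bool) : Prop :=
  ∀ (a b : Finset ℕ) (k l : ℕ), b ⊆ a → l ≤ k → c (a, k) = true → c (b, l) = true

variable {X : Type*} (U : ℕ → Set X)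

/-- The closed set coded by a complex. -/
def FC (c : S → Bool) : Set X :=
  {p | ∀ (a : Finset ℕ) (k : ℕ), (∀ i ∈ a, p ∈ U i) → c (a, k) = true}

/-- The complexes whose closed set does not meet `U m`. -/
def II (m : ℕ) : Set (S → Bool) := {c | IsCpx c ∧ ∀ p ∈ U m, p ∉ FC U c}

lemma continuous_ev (s : S) : Continuous fun c : S → Bool => c s :=
  continuous_apply (A := fun _ : S => Bool) s

lemma isClosed_cpx : IsClosed {c : S → Bool | IsCpx c} := by
  have : {c : S → Bool | IsCpx c} = ⋂ (a : Finset ℕ) (b : Finset ℕ) (k : ℕ) (l : ℕ)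
      (_ : b ⊆ a) (_ : l ≤ k), {c : S → Bool | c (a, k) = false ∨ c (b, l) = true} := by
    ext c
    simp only [mem_ofPred_eq, IsCpx, mem_iInter]
    refine forall_congr' fun a => forall_congr' fun b => forall_congr' fun k =>
      forall_congr' fun l => forall_congr' fun _ => forall_congr' fun _ => ?_
    cases c (a, k) <;> simp
  rw [this]
  refine isClosed_iInter fun a => isClosed_iInter fun b => isClosed_iInter fun k =>
    isClosed_iInter fun l => isClosed_iInter fun _ => isClosed_iInter fun _ => ?_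
  exact ((isClosed_discrete {b | b = false}).preimage (continuous_ev _)).union
    ((isClosed_discrete {b | b = true}).preimage (continuous_ev _))

open Classical in
/-- The union of a family of complexes. -/
noncomputable def unionC (L : Set (S → Bool)) : S → Bool := fun s => decide (∃ c ∈ L, c s = true)

lemma unionC_eq_true {L : Set (S → Bool)} {s : S} : unionC L s = true ↔ ∃ c ∈ L, c s = true := by
  classical
  simp [unionC]

lemma unionC_mem {m : ℕ} {L : Set (S → Bool)} (hL : IsCompact L) (hsub : L ⊆ II U m) :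
    unionC L ∈ II U m := by
  refine ⟨?_, ?_⟩
  · intro a b k l hba hlk h
    rw [unionC_eq_true] at h ⊢
    obtain ⟨c, hc, hc2⟩ := h
    exact ⟨c, hc, (hsub hc).1 a b k l hba hlk hc2⟩
  · intro p hp hF
    -- the sets of the complexes in `L` which contain a given index
    let J : Type := {a : Finset ℕ // ∀ i ∈ a, p ∈ U i} × ℕ
    have _ : Nonempty J := ⟨⟨⟨∅, by simp⟩, 0⟩⟩
    let T : J → Set (S → Bool) := fun j => L ∩ {c | c (j.1.1, j.2) = true}
    have hclosed : ∀ j : J, IsClosed {c : S → Bool | c (j.1.1, j.2) = true} := fun j =>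
      (isClosed_discrete {b | b = true}).preimage (continuous_ev _)
    have hne : (⋂ j, T j).Nonempty := by
      apply IsCompact.nonempty_iInter_of_directed_nonempty_isCompact_isClosed
      · classical
        rintro ⟨⟨a, ha⟩, k⟩ ⟨⟨b, hb⟩, l⟩
        refine ⟨⟨⟨a ∪ b, ?_⟩, max k l⟩, ?_, ?_⟩
        · intro i hi
          rcases Finset.mem_union.1 hi with h | h
          · exact ha i h
          · exact hb i h
        · rintro c ⟨hc1, hc2⟩
          exact ⟨hc1, (hsub hc1).1 _ _ _ _ Finset.subset_union_left (le_max_left _ _) hc2⟩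
        · rintro c ⟨hc1, hc2⟩
          exact ⟨hc1, (hsub hc1).1 _ _ _ _ Finset.subset_union_right (le_max_right _ _) hc2⟩
      · intro j
        obtain ⟨c, hc, hc2⟩ := unionC_eq_true.1 (hF j.1.1 j.2 j.1.2)
        exact ⟨c, hc, hc2⟩
      · intro j
        exact hL.inter_right (hclosed j)
      · intro j
        exact hL.isClosed.inter (hclosed j)
    obtain ⟨c, hc⟩ := hne
    rw [mem_iInter] at hc
    have hcL : c ∈ L := (hc (Classical.arbitrary J)).1
    refine (hsub hcL).2 p hp ?_
    intro a k ha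
    exact (hc ⟨⟨a, ha⟩, k⟩).2

/-- The set `{τ | τ ≤ σ}` is compact. -/
lemma isCompact_below (σ : ℕ → ℕ) : IsCompact {τ : ℕ → ℕ | τ ≤ σ} := by
  have : {τ : ℕ → ℕ | τ ≤ σ} = Set.pi Set.univ (fun i => Iic (σ i)) := by
    ext τ
    simp [Pi.le_def]
  rw [this]
  exact isCompact_univ_pi fun i => (finite_Iic (σ i)).isCompact

/-- If `II U m` is analytic then it is a `G_δ` set. -/
theorem isGδ_II (m : ℕ) (h : AnalyticSet (II U m)) : IsGδ (II U m) := by
  rw [AnalyticSet] at h
  rcases h with h | ⟨φ, hφ, hrange⟩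
  · rw [h]
    exact isOpen_empty.isGδ
  · let Φ : (ℕ → ℕ) → Set (S → Bool) := fun σ =>
      {c | IsCpx c ∧ ∀ s, c s = true → ∃ τ ≤ σ, φ τ s = true}
    have hmem : ∀ τ, φ τ ∈ II U m := fun τ => hrange ▸ mem_range_self τ
    apply isGδ_of_cofinal (Φ := Φ)
    · rintro σ τ hle c ⟨h1, h2⟩
      refine ⟨h1, fun s hs => ?_⟩
      obtain ⟨ρ, hρ, h3⟩ := h2 s hs
      exact ⟨ρ, hρ.trans hle, h3⟩
    · intro σ
      have : Φ σ = {c | IsCpx c} ∩ ⋂ s : {s : S // ¬ ∃ τ ≤ σ, φ τ s = true},
          {c : S → Bool | c s.1 = false} := by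
        ext c
        simp only [Φ, mem_ofPred_eq, mem_inter_iff, mem_iInter, Subtype.forall]
        refine and_congr_right fun _ => forall_congr' fun s => ?_
        cases c s <;> simp
      rw [this]
      exact isClosed_cpx.inter (isClosed_iInter fun s =>
        (isClosed_discrete {b | b = false}).preimage (continuous_ev _))
    · rintro σ c ⟨h1, h2⟩
      have h3 : unionC (φ '' {τ | τ ≤ σ}) ∈ II U m := by
        apply unionC_mem U ((isCompact_below σ).image hφ)
        rintro _ ⟨τ, _, rfl⟩
        exact hmem τ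
      refine ⟨h1, fun p hp hF => h3.2 p hp ?_⟩
      intro a k ha
      rw [unionC_eq_true]
      obtain ⟨τ, hτ, h4⟩ := h2 _ (hF a k ha)
      exact ⟨_, ⟨τ, hτ, rfl⟩, h4⟩
    · intro K hK hsub
      have h3 := unionC_mem U hK hsub
      rw [← hrange] at h3
      obtain ⟨σ, hσ⟩ := h3
      refine ⟨σ, fun c hc => ⟨(hsub hc).1, fun s hs => ⟨σ, le_rfl, ?_⟩⟩⟩
      rw [hσ, unionC_eq_true]
      exact ⟨c, hc, hs⟩

/-! ### Codes -/

/-- The complex of a code of an open set. -/
def cpxOf (y : ℕ → ℕ) : S → Bool := fun s => decide (∀ i ≤ s.2, y i ∉ s.1)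

lemma isCpx_cpxOf (y : ℕ → ℕ) : IsCpx (cpxOf y) := by
  intro a b k l hba hlk h
  simp only [cpxOf, decide_eq_true_eq] at h ⊢
  exact fun i hi hmem => h i (hi.trans hlk) (hba hmem)

lemma continuous_cpxOf : Continuous cpxOf := by
  refine continuous_pi fun s => ?_
  -- depends on finitely many coordinates
  have h1 : IsClopen {y : ℕ → ℕ | ∀ i ≤ s.2, y i ∉ s.1} := by
    have : {y : ℕ → ℕ | ∀ i ≤ s.2, y i ∉ s.1} = ⋂ i ∈ Iic s.2, {y : ℕ → ℕ | y i ∉ s.1} := by
      ext y
      simp
    rw [this]
    refine (finite_Iic s.2).isClopen_biInter fun i _ => ?_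
    exact (isClopen_discrete {n : ℕ | n ∉ s.1}).preimage (continuous_apply (A := fun _ : ℕ => ℕ) i)
  rw [continuous_discrete_rng]
  intro b
  cases b
  · have : (fun y : ℕ → ℕ => cpxOf y s) ⁻¹' {false} = {y : ℕ → ℕ | ∀ i ≤ s.2, y i ∉ s.1}ᶜ := by
      ext y
      simp [cpxOf]
    rw [this]
    exact h1.compl.isOpen
  · have : (fun y : ℕ → ℕ => cpxOf y s) ⁻¹' {true} = {y : ℕ → ℕ | ∀ i ≤ s.2, y i ∉ s.1} := by
      ext y
      simp [cpxOf]
    rw [this]
    exact h1.isOpen

lemma FC_cpxOf (y : ℕ → ℕ) (p : X) : p ∈ FC U (cpxOf y) ↔ p ∉ ⋃ n, U (y n) := by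
  simp only [FC, cpxOf, mem_ofPred_eq, decide_eq_true_eq, mem_iUnion, not_exists]
  constructor
  · intro h n hn
    refine h {y n} n ?_ n le_rfl (Finset.mem_singleton_self _)
    intro i hi
    rw [Finset.mem_singleton] at hi
    rw [hi]
    exact hn
  · intro h a k ha i _ hmem
    exact h i (ha _ hmem)

/-- The codes of the open sets containing `U m`. -/
def Sm (m : ℕ) : Set (ℕ → ℕ) := {y | U m ⊆ ⋃ n, U (y n)}

lemma Sm_eq (m : ℕ) : Sm U m = cpxOf ⁻¹' (II U m) := by
  ext y
  simp only [Sm, mem_ofPred_eq, mem_preimage, II]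
  constructor
  · intro h
    refine ⟨isCpx_cpxOf y, fun p hp => ?_⟩
    rw [FC_cpxOf]
    exact fun h2 => h2 (h hp)
  · rintro ⟨_, h⟩ p hp
    have := h p hp
    rw [FC_cpxOf] at this
    exact not_not.1 this

/-! ### Complexes to codes -/

/-- The triples `((a, k), j)`. -/
abbrev T : Type := S × ℕ

/-- The triple is valid for the complex. -/
def Valid (c : S → Bool) (t : T) : Prop :=
  c t.1 = false ∧ U t.2 ⊆ {p | ∀ i ∈ t.1.1, p ∈ U i}

open Classical in
/-- The code with default value `d`. -/
noncomputable def codeOf (e : ℕ → T) (d : ℕ) (c : S → Bool) : ℕ → ℕ := fun i =>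
  if Valid U c (e i) then (e i).2 else d

lemma continuous_codeOf (e : ℕ → T) (d : ℕ) : Continuous (codeOf U e d) := by
  classical
  refine continuous_pi fun i => ?_
  by_cases h : U (e i).2 ⊆ {p | ∀ i' ∈ (e i).1.1, p ∈ U i'}
  · have : (fun c => codeOf U e d c i) = (fun b : Bool => if b = false then (e i).2 else d) ∘
        (fun c : S → Bool => c (e i).1) := by
      funext c
      simp [codeOf, Valid, h]
    rw [this]
    exact continuous_of_discreteTopology.comp (continuous_ev _)
  · have : (fun c => codeOf U e d c i) = fun _ => d := by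
      funext c
      simp [codeOf, Valid, h]
    rw [this]
    exact continuous_const

variable {U}

lemma codeOf_union [TopologicalSpace X] (hU : IsTopologicalBasis (range U)) {e : ℕ → T}
    (he : Function.Surjective e) {c : S → Bool} {t : T} (ht : Valid U c t) (p : X) :
    p ∈ ⋃ n, U (codeOf U e t.2 c n) ↔ p ∉ FC U c := by
  classical
  rw [mem_iUnion]
  constructor
  · rintro ⟨n, hn⟩
    have key : ∃ t' : T, Valid U c t' ∧ p ∈ U t'.2 := by
      by_cases hv : Valid U c (e n)
      · simp only [codeOf, if_pos hv] at hn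
        exact ⟨_, hv, hn⟩
      · simp only [codeOf, if_neg hv] at hn
        exact ⟨t, ht, hn⟩
    obtain ⟨t', ht', hp⟩ := key
    intro hF
    have h1 := hF t'.1.1 t'.1.2 (ht'.2 hp)
    have h2 := ht'.1
    rw [show t'.1 = (t'.1.1, t'.1.2) from rfl, h1] at h2
    exact Bool.noConfusion h2
  · intro hF
    simp only [FC, mem_ofPred_eq, not_forall] at hF
    obtain ⟨a, k, ha, hc⟩ := hF
    have hopen : IsOpen {q | ∀ i ∈ a, q ∈ U i} := by
      have : {q | ∀ i ∈ a, q ∈ U i} = ⋂ i ∈ a, U i := by
        ext q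
        simp
      rw [this]
      exact isOpen_biInter_finset fun i _ => hU.isOpen (mem_range_self i)
    obtain ⟨V, ⟨j, rfl⟩, hj1, hj2⟩ := hU.exists_subset_of_mem_open
      (show p ∈ {q | ∀ i ∈ a, q ∈ U i} from ha) hopen
    obtain ⟨n, hn⟩ := he ((a, k), j)
    have hv : Valid U c (e n) := by
      rw [hn]
      refine ⟨?_, hj2⟩
      cases h : c (a, k)
      · rfl
      · exact absurd h hc
    refine ⟨n, ?_⟩
    simp only [codeOf, if_pos hv]
    rw [hn]
    exact hj1

theorem analytic_II [TopologicalSpace X] (hU : IsTopologicalBasis (range U)) (m : ℕ)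
    (hne : (U m).Nonempty) (h : AnalyticSet (Sm U m)) : AnalyticSet (II U m) := by
  classical
  have _ : PolishSpace (S → Bool) := polish_cantor S
  obtain ⟨e, he⟩ := exists_surjective_nat T
  have heq : II U m = ⋃ t : T, ({c | IsCpx c} ∩ {c | Valid U c t}) ∩
      (codeOf U e t.2) ⁻¹' (Sm U m) := by
    ext c
    simp only [mem_iUnion, mem_inter_iff, mem_ofPred_eq, mem_preimage]
    constructor
    · rintro ⟨h1, h2⟩
      obtain ⟨p, hp⟩ := hne
      have h3 := h2 p hp
      simp only [FC, mem_ofPred_eq, not_forall] at h3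
      obtain ⟨a, k, ha, hc⟩ := h3
      have hopen : IsOpen {q | ∀ i ∈ a, q ∈ U i} := by
        have : {q | ∀ i ∈ a, q ∈ U i} = ⋂ i ∈ a, U i := by
          ext q
          simp
        rw [this]
        exact isOpen_biInter_finset fun i _ => hU.isOpen (mem_range_self i)
      obtain ⟨V, ⟨j, rfl⟩, hj1, hj2⟩ := hU.exists_subset_of_mem_open
        (show p ∈ {q | ∀ i ∈ a, q ∈ U i} from ha) hopen
      have hv : Valid U c ((a, k), j) := by
        refine ⟨?_, hj2⟩
        cases h : c (a, k)
        · rfl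
        · exact absurd h hc
      refine ⟨((a, k), j), ⟨h1, hv⟩, ?_⟩
      intro q hq
      exact (codeOf_union hU he hv q).2 (h2 q hq)
    · rintro ⟨t, ⟨h1, h2⟩, h3⟩
      refine ⟨h1, fun p hp => ?_⟩
      exact (codeOf_union hU he h2 p).1 (h3 hp)
  rw [heq]
  refine AnalyticSet.iUnion fun t => ?_
  have h1 : IsClosed ({c : S → Bool | IsCpx c} ∩ {c | Valid U c t}) := by
    refine isClosed_cpx.inter ?_
    by_cases h : U t.2 ⊆ {p | ∀ i ∈ t.1.1, p ∈ U i}
    · have : {c : S → Bool | Valid U c t} = {c | c t.1 = false} := by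
        ext c
        simp [Valid, h]
      rw [this]
      exact (isClosed_discrete {b | b = false}).preimage (continuous_ev _)
    · have : {c : S → Bool | Valid U c t} = ∅ := by
        ext c
        simp [Valid, h]
      rw [this]
      exact isClosed_empty
  have h2 : AnalyticSet ((codeOf U e t.2) ⁻¹' (Sm U m)) :=
    h.preimage (continuous_codeOf U e t.2)
  rw [inter_eq_iInter]
  exact AnalyticSet.iInter (by
    intro b
    cases b
    · exact h2
    · exact h1.analyticSet)

/-- If the codes of the open sets containing `U m` form an analytic set, then they form a `G_δ`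
set. -/
theorem isGδ_Sm [TopologicalSpace X] (hU : IsTopologicalBasis (range U)) (m : ℕ)
    (h : AnalyticSet (Sm U m)) : IsGδ (Sm U m) := by
  rcases (U m).eq_empty_or_nonempty with he | hne
  · have : Sm U m = Set.univ := by
      ext y
      simp [Sm, he]
    rw [this]
    exact isOpen_univ.isGδ
  · rw [Sm_eq]
    exact (isGδ_II U m (analytic_II hU m hne h)).preimage continuous_cpxOf

end Q214.OC
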